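import Pool.Agent.H63.EH.Hull

/-!
# Ehrhart's volume bound in convex hull form

The library (`Results/MP_4c844b_co/EhrhartVolume`, `.../SeveralBodies`) has Ehrhart's conjecture: a
convex body `K ⊆ ℝ^d` with centroid `0` and with volume `> (d+1)^d / d! · det L` has a nonzero point of
the lattice `L` in its interior. Here we prove more: `0` is a convex combination of the nonzero points
of `L` in the interior of `K`. So it is not possible that all these points lie in an open half space
`ℓ > 0`; the volume bound holds for all bodies with centroid `0` for which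
`{x ∈ int K : ℓ x ≤ 0}` contains no point of `L` but `0`, for one linear functional `ℓ`, whatever the
number of lattice points in the other half. In particular there are at least two nonzero lattice
points in the interior. The same holds for several bodies with weights.

Proof. The library's proof constructs, for the set `A` of the points of `k K ∩ ℤ^d` (translated into
`ℕ^d`), polynomials over a field with `p` elements with exponents in `A`, with leading exponents the
elements of `A`, and which vanish to high total order at `(1, …, 1)`; it folds the exponents of a power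
of their product modulo `p^e`. The leading exponent of the power is a multiple of the barycentre. The
leading exponents can be taken for an arbitrary order of `ℤ^d`, for example the order given by `ℓ`,
and all exponents are at most the leading one, so only the lattice points of `int K` with `ℓ ≤ 0` can
disturb the leading coefficient.
-/

set_option autoImplicit false

open MeasureTheory Set
open scoped Matrix

namespace Pool.Agent.Results.MP_4c844b_co.CentroidInConvexHull

/-- The lattice `A ℤ^d`. -/
def lattice {d : ℕ} (A : Matrix (Fin d) (Fin d) ℝ) : Set (Fin d → ℝ) :=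
  {x | ∃ z : Fin d → ℤ, x = A *ᵥ fun i => (z i : ℝ)}

/-- The centroid `(1 / V(K)) ∫_K x dx`. -/
noncomputable def centroid {d : ℕ} (K : Set (Fin d → ℝ)) : Fin d → ℝ :=
  (volume K).toReal⁻¹ • ∫ x in K, x

/-- The nonzero points of the lattice `A ℤ^d` in the interior of `K`. -/
def points {d : ℕ} (A : Matrix (Fin d) (Fin d) ℝ) (K : Set (Fin d → ℝ)) : Set (Fin d → ℝ) :=
  (interior K ∩ lattice A) \ {0}

/-- The Minkowski sum `K_1 + ... + K_m`. -/
def minkowskiSum {d m : ℕ} (K : Fin m → Set (Fin d → ℝ)) : Set (Fin d → ℝ) :=
  {x | ∃ y : Fin m → (Fin d → ℝ), (∀ i, y i ∈ K i) ∧ x = ∑ i, y i}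

/-- **Ehrhart's volume bound in convex hull form.** Let `L = A ℤ^d` be a lattice, `d ≥ 1`.
* If `K` is a convex body with centroid `0` and `V(K) > (d+1)^d / d! · det L`, then `0` is in the
  convex hull of the nonzero points of `L` in the interior of `K`.
* Equivalently: if there is a linear functional which is positive at all nonzero points of `L` in the
  interior of `K`, then `V(K) ≤ (d+1)^d / d! · det L`. If there are no such points, this is the bound
  of the problem.
* Several bodies: if `K_i` are compact convex sets with integrable weights `f_i : K_i → [0,1]` of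
  positive mass and barycentre `0`, and `∑ (∫ f_i)^(1/d) > (d+1) (det L / d!)^(1/d)`, then `0` is in
  the convex hull of the nonzero points of `L` in the interior of `K_1 + ... + K_m`. -/
theorem result (d : ℕ) (hd : 1 ≤ d) (A : Matrix (Fin d) (Fin d) ℝ) (hA : A.det ≠ 0) :
    (∀ K : Set (Fin d → ℝ), IsCompact K → Convex ℝ K → (interior K).Nonempty → centroid K = 0 →
      (((d : ℝ) + 1) ^ d / d.factorial * |A.det| < (volume K).toReal →
        (0 : Fin d → ℝ) ∈ convexHull ℝ (points A K)) ∧
      ((∃ ℓ : (Fin d → ℝ) →ₗ[ℝ] ℝ, ∀ x ∈ points A K, 0 < ℓ x) →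
        (volume K).toReal ≤ ((d : ℝ) + 1) ^ d / d.factorial * |A.det|) ∧
      (interior K ∩ lattice A = {0} →
        (volume K).toReal ≤ ((d : ℝ) + 1) ^ d / d.factorial * |A.det|)) ∧
    ∀ (m : ℕ) (K : Fin m → Set (Fin d → ℝ)) (f : Fin m → (Fin d → ℝ) → ℝ),
      (∀ i, IsCompact (K i)) → (∀ i, Convex ℝ (K i)) → (∀ i, IntegrableOn (f i) (K i)) →
      (∀ i, ∀ x ∈ K i, 0 ≤ f i x ∧ f i x ≤ 1) → (∀ i, 0 < ∫ x in K i, f i x) →
      (∀ i, ∫ x in K i, f i x • x = 0) →
      ((d : ℝ) + 1) * (|A.det| / d.factorial) ^ ((d : ℝ)⁻¹) <
        ∑ i, (∫ x in K i, f i x) ^ ((d : ℝ)⁻¹) →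
      (0 : Fin d → ℝ) ∈ convexHull ℝ (points A (minkowskiSum K)) := by
  have key : ∀ K : Set (Fin d → ℝ), IsCompact K → Convex ℝ K → (interior K).Nonempty →
      centroid K = 0 → (0 : Fin d → ℝ) ∉ convexHull ℝ (points A K) →
      (volume K).toReal ≤ ((d : ℝ) + 1) ^ d / d.factorial * |A.det| :=
    fun K hK hKc hne hcen h0 => Pool.Agent.H63.EH.one hd hA hK hKc hne hcen h0
  refine ⟨fun K hK hKc hne hcen => ⟨fun h => ?_, fun ⟨ℓ, hℓ⟩ => ?_, fun h => ?_⟩, ?_⟩
  · by_contra h0
    exact absurd (key K hK hKc hne hcen h0) (not_le.2 h)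
  · refine key K hK hKc hne hcen fun h0 => ?_
    have h1 : convexHull ℝ (points A K) ⊆ {x | 0 < ℓ x} :=
      convexHull_min hℓ (convex_halfSpace_gt ℓ.isLinear 0)
    have h2 : (0 : ℝ) < ℓ 0 := h1 h0
    rw [map_zero] at h2
    exact lt_irrefl _ h2
  · refine key K hK hKc hne hcen ?_
    have h1 : points A K = ∅ := by unfold points; rw [h]; simp
    rw [h1, convexHull_empty]
    exact notMem_empty _
  · intro m K f hK hKc hf hf01 hpos hcen h
    by_contra h0
    exact absurd (Pool.Agent.H63.EH.several hd hA hK hKc hf hf01 hpos hcen h0) (not_le.2 h)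

end Pool.Agent.Results.MP_4c844b_co.CentroidInConvexHull
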